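import Pool.Agent.H49.LAN.Stmts

set_option autoImplicit false
set_option maxHeartbeats 4000000

open scoped BigOperators
open Finset

namespace LAN

namespace AR3

theorem core (b : ℕ) (X Y w : ℤ) (hX : ¬ (3 : ℤ) ∣ X)
    (h : X * Y = (3 : ℤ) ^ b * 3 ^ b * (9 * ((3 : ℤ) ^ b) ^ 2 - 1))
    (hw : w = X + Y + 6 * ((3 : ℤ) ^ b) ^ 2) (h3w : ¬ (3 : ℤ) ∣ w)
    (hY1 : 9 * ((3 : ℤ) ^ b) ^ 2 - 3 * 3 ^ b ≤ 6 * Y)
    (hY2 : 3 * Y ≤ 18 * ((3 : ℤ) ^ b) ^ 2 + 6 * 3 ^ b) :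
    1 ≤ b ∧ (2 * (3 * w) = 75 * ((3 : ℤ) ^ b) ^ 2 - 3 ∨
      4 * (3 * w) = 147 * ((3 : ℤ) ^ b) ^ 2 - 3 ∨ 5 * (3 * w) = 192 * ((3 : ℤ) ^ b) ^ 2 - 3) := by
  have hcop : IsCoprime ((3 : ℤ) ^ b * 3 ^ b) X := by
    rw [← pow_add]
    apply IsCoprime.pow_left
    exact (Int.isCoprime_iff_gcd_eq_one.2 (by
      rw [← Int.isCoprime_iff_gcd_eq_one]
      exact (Prime.coprime_iff_not_dvd Int.prime_three).2 hX))
  have hdvd : ((3 : ℤ) ^ b * 3 ^ b) ∣ Y :=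
    hcop.dvd_of_dvd_mul_left (by rw [h]; exact Dvd.intro _ rfl)
  obtain ⟨y, rfl⟩ := hdvd
  have hB : (0 : ℤ) < 3 ^ b := by positivity
  set B : ℤ := 3 ^ b with hBdef
  have hXy : X * y = 9 * B ^ 2 - 1 := by
    have h1 : (B * B) * (X * y) = (B * B) * (9 * B ^ 2 - 1) := by
      rw [← h]; ring
    exact mul_left_cancel₀ (by positivity) h1
  rcases Nat.eq_zero_or_pos b with hb | hb
  · exfalso
    subst hb
    simp only [pow_zero] at hBdef
    rw [hBdef] at hY1 hY2 hXy hw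
    have hy1 : 1 ≤ y := by linarith
    have hy2 : y ≤ 8 := by linarith
    interval_cases y <;> omega
  · refine ⟨hb, ?_⟩
    have hB3 : 3 ≤ B := by
      rw [hBdef]
      calc (3 : ℤ) = 3 ^ 1 := by norm_num
        _ ≤ 3 ^ b := pow_le_pow_right₀ (by norm_num) hb
    have hy1 : 2 ≤ y := by
      by_contra hlt
      have hlt' : y ≤ 1 := by omega
      have : 6 * (B * B * y) ≤ 6 * (B * B) := by nlinarith [mul_pos hB hB]
      nlinarith
    have hy2 : y ≤ 6 := by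
      by_contra hlt
      have hlt' : 7 ≤ y := by omega
      have : 3 * (B * B) * 7 ≤ 3 * (B * B * y) := by nlinarith [mul_pos hB hB]
      nlinarith
    have hy3 : ¬ (3 : ℤ) ∣ y := by
      rintro ⟨t, rfl⟩
      have : (3 : ℤ) ∣ 1 := by
        have h1 : (1 : ℤ) = 3 * (3 * B ^ 2 - X * t) := by linarith
        exact ⟨_, h1⟩
      omega
    have hyw : y * w = 9 * B ^ 2 - 1 + y ^ 2 * B ^ 2 + 6 * y * B ^ 2 := by
      rw [hw, mul_add, mul_add, mul_comm y X, hXy]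
      ring
    interval_cases y
    · left; linarith
    · exact absurd ⟨1, by norm_num⟩ hy3
    · right; left; linarith
    · right; right; linarith
    · exact absurd ⟨2, by norm_num⟩ hy3

end AR3

theorem ar3 : AR3Stmt := by
  intro a w s κ k lam hs ha hcop hlam hk hkv hk2 hκ h1 h2 hw
  -- `a = 2 c`
  have hdv : κ.natAbs ∣ 3 ^ a := by
    have : κ.natAbs ^ 2 = 3 ^ a := by
      have := congrArg Int.natAbs hκ
      rw [Int.natAbs_pow, Int.natAbs_pow] at this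
      exact this
    exact ⟨κ.natAbs, by rw [← this, sq]⟩
  obtain ⟨c, _, hc⟩ := (Nat.dvd_prime_pow Nat.prime_three).1 hdv
  have hac : a = 2 * c := by
    have h3 : (3 : ℕ) ^ (2 * c) = 3 ^ a := by
      have h4 : κ.natAbs ^ 2 = 3 ^ a := by
        have := congrArg Int.natAbs hκ
        rw [Int.natAbs_pow, Int.natAbs_pow] at this
        exact this
      rw [← h4, hc, ← pow_mul, mul_comm]
    exact (Nat.pow_right_injective (le_refl 2) |> fun _ =>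
      (Nat.pow_right_injective (by norm_num : 2 ≤ 3) h3)).symm
  have hc1 : 1 ≤ c := by omega
  obtain ⟨b, rfl⟩ : ∃ b, c = b + 1 := ⟨c - 1, by omega⟩
  subst hac
  have hB : (0 : ℤ) < 3 ^ b := by positivity
  have hB1 : (1 : ℤ) ≤ 3 ^ b := hB
  set B : ℤ := 3 ^ b with hBdef
  have hn : (3 : ℤ) ^ (2 * (b + 1)) = 9 * B ^ 2 := by
    rw [hBdef]; ring
  have hκB : κ = 3 * B ∨ κ = - (3 * B) := by
    have : (κ.natAbs : ℤ) = 3 * B := by
      rw [hc, hBdef]; push_cast; ring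
    rcases Int.natAbs_eq κ with h | h
    · left; rw [h, this]
    · right; rw [h, this]
  rw [hn] at hk hk2 h1 h2 hw
  obtain ⟨v, hv⟩ : ∃ v : ℤ, v = 3 ^ s * w := ⟨_, rfl⟩
  rw [← hv] at hkv hk2 h2
  obtain ⟨mu, hmu⟩ : ∃ mu : ℤ, mu = v - lam - 18 * B ^ 2 := ⟨_, rfl⟩
  have hlm : lam * mu = 9 * B ^ 2 * (9 * B ^ 2 - 1) := by
    rw [hk] at hk2
    rw [hmu]
    linarith
  have hl1 : 9 * B ^ 2 - 3 * B ≤ 2 * lam := by
    rcases hκB with h | h <;> rw [h] at h1 <;> linarith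
  have hm1 : 9 * B ^ 2 - 3 * B ≤ 2 * mu := by
    rcases hκB with h | h <;> rw [h] at h2 <;> linarith
  have hB2 : B ≤ B ^ 2 := by nlinarith
  have hbig : 0 < 3 * B - 1 := by linarith
  have hub : ∀ x y : ℤ, x * y = 9 * B ^ 2 * (9 * B ^ 2 - 1) → 9 * B ^ 2 - 3 * B ≤ 2 * x →
      9 * B ^ 2 - 3 * B ≤ 2 * y → x ≤ 18 * B ^ 2 + 6 * B := by
    intro x y hxy hx hy
    have hx0 : 0 < x := by nlinarith
    have h3 : x * (3 * B * (3 * B - 1)) ≤ (18 * B ^ 2 + 6 * B) * (3 * B * (3 * B - 1)) := by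
      nlinarith
    exact le_of_mul_le_mul_right h3 (by positivity)
  have hl2 := hub lam mu hlm hl1 hm1
  have hm2 := hub mu lam (by rw [mul_comm]; exact hlm) hm1 hl1
  -- `v < 9 n`
  have hv9 : v < 81 * B ^ 2 := by
    have h3 : 2 * (lam + mu) * (3 * B * (3 * B - 1)) ≤ (45 * B ^ 2 + 9 * B) * (3 * B * (3 * B - 1)) := by
      nlinarith [mul_nonneg (sub_nonneg.2 hl1) (sub_nonneg.2 hm1)]
    have h4 : 2 * (lam + mu) ≤ 45 * B ^ 2 + 9 * B := le_of_mul_le_mul_right h3 (by positivity)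
    nlinarith
  have hs1 : s = 1 := by
    by_contra hne
    have hs2 : 2 ≤ s := by omega
    have h9 : (9 : ℤ) ≤ 3 ^ s := by
      calc (9 : ℤ) = 3 ^ 2 := by norm_num
        _ ≤ 3 ^ s := pow_le_pow_right₀ (by norm_num) hs2
    have : 9 * (9 * B ^ 2) ≤ v := by
      rw [hv]
      have hw0 : (0 : ℤ) ≤ w := Int.natCast_nonneg w
      nlinarith
    linarith
  refine ⟨hs1, ?_⟩
  subst hs1
  rw [pow_one] at hv
  -- divisibility by 3
  have h3w : ¬ (3 : ℤ) ∣ (w : ℤ) := by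
    intro h
    have : (3 : ℕ) ∣ w := by exact_mod_cast h
    exact (Nat.Prime.coprime_iff_not_dvd Nat.prime_three).1 hcop this
  have h3k : (3 : ℤ) ∣ k := by
    apply Int.prime_three.dvd_of_dvd_pow (n := 2)
    rw [hk2, hv]
    exact ⟨3 * B ^ 2 + lam * w, by ring⟩
  obtain ⟨k', rfl⟩ := h3k
  obtain ⟨X, hX⟩ : ∃ X, lam = 3 * X := ⟨k' - 3 * B ^ 2, by linarith⟩
  obtain ⟨Y, hY⟩ : ∃ Y, mu = 3 * Y := ⟨w - X - 6 * B ^ 2, by rw [hmu, hv, hX]; ring⟩
  have hXY : X * Y = B * B * (9 * B ^ 2 - 1) := by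
    rw [hX, hY] at hlm
    linarith
  have hwXY : (w : ℤ) = X + Y + 6 * B ^ 2 := by
    rw [hX, hY, hv] at hmu
    linarith
  have key : 1 ≤ b ∧ (2 * (3 * (w : ℤ)) = 75 * B ^ 2 - 3 ∨
      4 * (3 * (w : ℤ)) = 147 * B ^ 2 - 3 ∨ 5 * (3 * (w : ℤ)) = 192 * B ^ 2 - 3) := by
    by_cases h3X : (3 : ℤ) ∣ X
    · have h3Y : ¬ (3 : ℤ) ∣ Y := by
        intro h3Y
        apply h3w
        rw [hwXY]
        exact dvd_add (dvd_add h3X h3Y) ⟨2 * B ^ 2, by ring⟩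
      exact AR3.core b Y X w h3Y (by rw [mul_comm]; exact hXY) (by rw [hwXY]; ring) h3w
        (by rw [hX] at hl1; linarith) (by rw [hX] at hl2; linarith)
    · exact AR3.core b X Y w h3X hXY hwXY h3w
        (by rw [hY] at hm1; linarith) (by rw [hY] at hm2; linarith)
  exact ⟨b, key.1, by ring, key.2⟩

end LAN
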