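import Pool.Agent.H49.LAN.Stmts

set_option autoImplicit false

open scoped BigOperators
open Finset

namespace LAN

namespace GRA

/-- a surjective homomorphism onto `ZMod p` -/
theorem exists_hom (G : Type) [CommGroup G] [Fintype G] (p : ℕ) [Fact p.Prime]
    (h : p ∣ Fintype.card G) : ∃ φ : G →* Multiplicative (ZMod p), Function.Surjective φ := by
  obtain ⟨ι, _, n, hn, ⟨e⟩⟩ := CommGroup.equiv_prod_multiplicative_zmod_of_finite G
  have hc : Fintype.card G = ∏ i, n i := by
    have h1 : Nat.card G = Nat.card ((i : ι) → Multiplicative (ZMod (n i))) :=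
      Nat.card_congr e.toEquiv
    rw [Nat.card_pi] at h1
    rw [← Nat.card_eq_fintype_card, h1]
    refine Finset.prod_congr rfl fun i _ => ?_
    have : Nat.card (Multiplicative (ZMod (n i))) = Nat.card (ZMod (n i)) :=
      Nat.card_congr Multiplicative.toAdd
    rw [this, Nat.card_zmod]
  rw [hc] at h
  obtain ⟨i, _, hi⟩ := (Nat.Prime.prime (Fact.out : p.Prime)).exists_mem_finset_dvd h
  classical
  refine ⟨((ZMod.castHom hi (ZMod p)).toAddMonoidHom.toMultiplicative.comp
    (Pi.evalMonoidHom (fun i => Multiplicative (ZMod (n i))) i)).comp e.toMonoidHom, ?_⟩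
  intro y
  obtain ⟨x, hx⟩ := ZMod.castHom_surjective hi (Multiplicative.toAdd y)
  refine ⟨e.symm (Pi.mulSingle i (Multiplicative.ofAdd x)), ?_⟩
  simp only [MonoidHom.comp_apply, MulEquiv.toMonoidHom_eq_coe, MonoidHom.coe_coe,
    MulEquiv.apply_symm_apply, Pi.evalMonoidHom_apply, Pi.mulSingle_eq_same]
  change Multiplicative.ofAdd ((ZMod.castHom hi (ZMod p)) x) = y
  rw [hx]
  rfl

end GRA

theorem gra : GRAStmt := by
  intro G _ _ _ D lam hD p _ hp
  obtain ⟨φ, hφ⟩ := GRA.exists_hom G p hp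
  classical
  let ψ : G → ZMod p := fun g => Multiplicative.toAdd (φ g)
  have hψ : ∀ a b, ψ (a * b) = ψ a + ψ b := fun a b => by simp [ψ]
  have hψ1 : ψ 1 = 0 := by simp [ψ]
  have hψi : ∀ a, ψ a⁻¹ = - ψ a := fun a => by simp [ψ]
  have hψs : Function.Surjective ψ := fun y => by
    obtain ⟨x, hx⟩ := hφ (Multiplicative.ofAdd y)
    exact ⟨x, by simp [ψ, hx]⟩
  refine ⟨fun x => ((D.filter (fun g => ψ g = x)).card : ℤ),
    (lam : ℤ) * ((univ.filter (fun g : G => ψ g = 0)).card : ℤ), fun d => ?_⟩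
  have hfib : ∀ d : ZMod p, (univ.filter (fun g : G => ψ g = d)).card =
      (univ.filter (fun g : G => ψ g = 0)).card := by
    intro d
    obtain ⟨x, hx⟩ := hψs d
    refine (Finset.card_bij (fun g _ => g * x) ?_ ?_ ?_).symm
    · intro g hg
      simp only [mem_filter, mem_univ, true_and] at hg ⊢
      rw [hψ, hg, hx, zero_add]
    · intro a _ b _ h
      exact mul_right_cancel h
    · intro b hb
      simp only [mem_filter, mem_univ, true_and] at hb
      refine ⟨b * x⁻¹, ?_, by simp⟩
      simp only [mem_filter, mem_univ, true_and]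
      rw [hψ, hψi, hb, hx, add_neg_cancel]
  -- counting pairs
  have h1 : (∑ x : ZMod p, ((D.filter (fun g => ψ g = x + d)).card : ℤ) *
      ((D.filter (fun g => ψ g = x)).card : ℤ)) =
      (((D ×ˢ D).filter (fun x => ψ (x.1 * x.2⁻¹) = d)).card : ℤ) := by
    have : ((D ×ˢ D).filter (fun x => ψ (x.1 * x.2⁻¹) = d)).card =
        ∑ x : ZMod p, (((D ×ˢ D).filter (fun y => ψ (y.1 * y.2⁻¹) = d)).filter
          (fun y => ψ y.2 = x)).card :=
      Finset.card_eq_sum_card_fiberwise (fun _ _ => by simp)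
    rw [this]
    push_cast
    refine Finset.sum_congr rfl fun x _ => ?_
    rw [← Nat.cast_mul, ← Finset.card_product]
    congr 2
    ext ⟨a, b⟩
    simp only [mem_product, mem_filter]
    constructor
    · rintro ⟨⟨ha, h1⟩, hb, h2⟩
      refine ⟨⟨⟨ha, hb⟩, ?_⟩, h2⟩
      rw [hψ, hψi, h1, h2]
      ring
    · rintro ⟨⟨⟨ha, hb⟩, h1⟩, h2⟩
      refine ⟨⟨ha, ?_⟩, hb, h2⟩
      rw [hψ, hψi, h2] at h1
      rw [← h1]
      ring
  have h2 : ((D ×ˢ D).filter (fun x => ψ (x.1 * x.2⁻¹) = d)).card =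
      ∑ g ∈ univ.filter (fun g : G => ψ g = d),
        ((D ×ˢ D).filter (fun x => x.1 * x.2⁻¹ = g)).card := by
    rw [Finset.card_eq_sum_card_fiberwise (f := fun x : G × G => x.1 * x.2⁻¹)
      (t := univ.filter (fun g : G => ψ g = d))
      (fun x hx => by
        simp only [coe_filter, mem_product, Set.mem_setOf_eq] at hx
        simp only [coe_filter, mem_univ, true_and, Set.mem_setOf_eq]
        exact hx.2)]
    refine Finset.sum_congr rfl fun g hg => ?_
    congr 1
    ext ⟨a, b⟩
    simp only [mem_filter, mem_univ, true_and] at hg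
    simp only [mem_filter, mem_product]
    constructor
    · rintro ⟨⟨h, _⟩, h2⟩
      exact ⟨h, h2⟩
    · rintro ⟨h, h2⟩
      exact ⟨⟨h, by rw [h2]; exact hg⟩, h2⟩
  have h3 : ∀ g : G, (((D ×ˢ D).filter (fun x => x.1 * x.2⁻¹ = g)).card : ℤ) =
      lam + if g = 1 then (D.card : ℤ) - lam else 0 := by
    intro g
    by_cases hg : g = 1
    · subst hg
      have : ((D ×ˢ D).filter (fun x => x.1 * x.2⁻¹ = 1)) = D.image (fun a => (a, a)) := by
        ext ⟨a, b⟩
        simp only [mem_filter, mem_product, mem_image, Prod.mk.injEq]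
        constructor
        · rintro ⟨⟨ha, hb⟩, h⟩
          exact ⟨a, ha, rfl, (mul_inv_eq_one.1 h)⟩
        · rintro ⟨c, hc, rfl, rfl⟩
          exact ⟨⟨hc, hc⟩, by simp⟩
      rw [this, Finset.card_image_of_injective _ (fun a b h => by simpa using h)]
      simp
    · rw [hD g hg]
      simp [hg]
  simp only
  rw [h1, h2]
  push_cast
  rw [Finset.sum_congr rfl (fun g _ => h3 g), Finset.sum_add_distrib, Finset.sum_const, hfib d]
  simp only [nsmul_eq_mul]
  have h4 : (∑ x ∈ univ.filter (fun g : G => ψ g = d), if x = 1 then (D.card : ℤ) - lam else 0) =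
      if d = 0 then (D.card : ℤ) - lam else 0 := by
    rw [Finset.sum_ite_eq']
    simp only [mem_filter, mem_univ, true_and, hψ1]
    by_cases hd : d = 0
    · simp [hd]
    · have : ¬ (0 = d) := fun h => hd h.symm
      simp [hd, this]
  rw [h4]
  ring

end LAN
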