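import Pool.Agent.H49.LAN.Stmts

set_option autoImplicit false

open scoped BigOperators
open Finset

namespace LAN

namespace GRP

theorem exists_dec (G : Type) [CommGroup G] [Fintype G] (p : ℕ) [Fact p.Prime]
    (h : p ∣ Fintype.card G) (P : Sylow p G) (hP : IsCyclic ↥(P.toSubgroup)) :
    ∃ (s : ℕ) (W : Subgroup G), 1 ≤ s ∧ Nat.Coprime p (Nat.card W) ∧
      p ^ s * Nat.card W = Nat.card G ∧ Nonempty (Multiplicative (ZMod (p ^ s)) × W ≃* G) := by
  have hPc : Nat.card P = p ^ (Nat.card G).factorization p := P.card_eq_multiplicity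
  obtain ⟨H, hH⟩ := Subgroup.exists_right_complement'_of_coprime (N := P.toSubgroup)
    P.card_coprime_index
  have hG : Nat.card P * Nat.card H = Nat.card G := hH.card_mul
  have hidx : P.toSubgroup.index = Nat.card H := by
    have := P.toSubgroup.card_mul_index
    rw [← hG] at this
    exact Nat.eq_of_mul_eq_mul_left Nat.card_pos this
  refine ⟨(Nat.card G).factorization p, H, ?_, ?_, ?_, ?_⟩
  · rw [← Nat.card_eq_fintype_card] at h
    exact (Fact.out : p.Prime).factorization_pos_of_dvd (Nat.card_pos.ne') h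
  · rw [← hidx]
    rw [Nat.Prime.coprime_iff_not_dvd (Fact.out : p.Prime)]
    exact P.not_dvd_index
  · rw [← hPc]
    exact hG
  · have e1 : Nonempty (Multiplicative (ZMod (p ^ (Nat.card G).factorization p)) ≃* P) := by
      rw [← hPc]
      exact ⟨zmodCyclicMulEquiv hP⟩
    obtain ⟨e1⟩ := e1
    have e2 : (P.toSubgroup × H) ≃* G := MulEquiv.ofBijective
      (P.toSubgroup.subtype.coprod H.subtype) (by
        have := hH
        exact this)
    exact ⟨(MulEquiv.prodCongr e1 (MulEquiv.refl H)).trans e2⟩

end GRP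

theorem grp : GRPStmt := by
  intro G _ _ _ D lam hD p _ hp ⟨P, hP⟩
  classical
  obtain ⟨s, W, hs, hcop, hcard, ⟨e⟩⟩ := GRP.exists_dec G p hp P hP
  have hW : Fintype W := Fintype.ofFinite W
  have hcW : Fintype.card W = Nat.card W := Nat.card_eq_fintype_card.symm
  let θ : ZMod (p ^ s) → W → G := fun i u => e (Multiplicative.ofAdd i, u)
  have hθ : ∀ i y u h, θ (i + y) (u * h) = θ i u * θ y h := by
    intro i y u h
    simp only [θ]
    rw [← map_mul]
    rfl
  have hθ1 : ∀ y h, θ y h = 1 ↔ y = 0 ∧ h = 1 := by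
    intro y h
    simp only [θ]
    rw [map_eq_one_iff e e.injective, Prod.mk_eq_one]
    rfl
  let f : ZMod (p ^ s) → W → ℤ := fun i u => if θ i u ∈ D then 1 else 0
  have hsum : ∀ F : G → ℤ, ∑ i, ∑ u, F (θ i u) = ∑ g, F g := by
    intro F
    rw [← Fintype.sum_prod_type']
    exact Fintype.sum_equiv (((Multiplicative.toAdd (α := ZMod (p ^ s))).symm.prodCongr
      (Equiv.refl W)).trans e.toEquiv) _ _ (fun x => rfl)
  refine ⟨s, W, inferInstance, hW, inferInstance, f, hs, ?_, ?_, ?_, ?_, ?_⟩
  · rw [hcW]; exact hcop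
  · rw [hcW, hcard, Nat.card_eq_fintype_card]
  · intro i u
    simp only [f]
    by_cases h : θ i u ∈ D
    · right; simp [h]
    · left; simp [h]
  · simp only [f]
    rw [hsum (fun g => if g ∈ D then 1 else 0)]
    simp
  · refine ⟨fun y h => ?_⟩
    have h1 : ∑ i, ∑ u, f (i + y) (u * h) * f i u =
        ∑ g : G, (if g * θ y h ∈ D then 1 else 0) * (if g ∈ D then (1 : ℤ) else 0) := by
      rw [← hsum (fun g => (if g * θ y h ∈ D then 1 else 0) * (if g ∈ D then (1 : ℤ) else 0))]
      refine Finset.sum_congr rfl fun i _ => Finset.sum_congr rfl fun u _ => ?_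
      simp only [f, hθ]
    rw [h1]
    have h2 : ∑ g : G, (if g * θ y h ∈ D then 1 else 0) * (if g ∈ D then (1 : ℤ) else 0) =
        ((D.filter (fun g => g * θ y h ∈ D)).card : ℤ) := by
      rw [Finset.card_filter]
      push_cast
      rw [← Finset.sum_subset (Finset.subset_univ D)]
      · refine Finset.sum_congr rfl fun g hg => ?_
        simp [hg]
      · intro g _ hg
        simp [hg]
    rw [h2]
    by_cases hk : θ y h = 1
    · have hk' := (hθ1 y h).1 hk
      rw [if_pos hk', hk]
      have : D.filter (fun g => g * 1 ∈ D) = D := by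
        ext g
        simp
      rw [this]
      ring
    · have hk' : ¬ (y = 0 ∧ h = 1) := fun h' => hk ((hθ1 y h).2 h')
      rw [if_neg hk', add_zero, ← hD _ hk]
      congr 1
      refine Finset.card_bij (fun g _ => (g * θ y h, g)) ?_ ?_ ?_
      · intro g hg
        simp only [mem_filter] at hg
        simp only [mem_filter, mem_product]
        exact ⟨⟨hg.2, hg.1⟩, by simp⟩
      · intro a _ b _ h
        simpa using h
      · rintro ⟨a, b⟩ hab
        simp only [mem_filter, mem_product] at hab
        refine ⟨b, ?_, ?_⟩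
        · simp only [mem_filter]
          refine ⟨hab.1.2, ?_⟩
          rw [← hab.2]
          simpa using hab.1.1
        · simp only [Prod.mk.injEq, and_true]
          rw [← hab.2]
          simp

end LAN
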